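import Mathlib
import Pool.Agent.R982.CBSTree

/-!
The height of the critical beta-splitting tree: basic recursions.
-/

namespace Pool.Agent.J4.H90.CBS

open BinaryTree Finset Filter Topology Pool.Agent.R982.CBS

/-- The height of a tree: the maximum of the depths of its leaves. -/
def treeHeight (t : BinaryTree Unit) : ℕ := (leafDepths t).foldr max 0

lemma foldr_max_append (L M : List ℕ) :
    (L ++ M).foldr max 0 = max (L.foldr max 0) (M.foldr max 0) := by
  induction L with
  | nil => simp
  | cons x L ih => simp only [List.cons_append, List.foldr_cons, ih, max_assoc]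

lemma foldr_max_map_succ (L : List ℕ) (hL : L ≠ []) :
    (L.map (fun d => d + 1)).foldr max 0 = L.foldr max 0 + 1 := by
  induction L with
  | nil => exact absurd rfl hL
  | cons x L ih =>
    simp only [List.map_cons, List.foldr_cons]
    by_cases h : L = []
    · subst h; simp
    · rw [ih h]; omega

lemma leafDepths_ne_nil (t : BinaryTree Unit) : leafDepths t ≠ [] := by
  induction t with
  | nil => simp [leafDepths]
  | node _ l r ihl ihr => simp [leafDepths, ihl]

lemma treeHeight_nil : treeHeight .nil = 0 := rfl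

lemma treeHeight_node (a : Unit) (l r : BinaryTree Unit) :
    treeHeight (.node a l r) = 1 + max (treeHeight l) (treeHeight r) := by
  unfold treeHeight
  rw [leafDepths, foldr_max_map_succ, foldr_max_append, add_comm]
  simp [leafDepths_ne_nil l]

lemma greedy_le_height (t : BinaryTree Unit) : greedyLength t ≤ treeHeight t := by
  induction t with
  | nil => simp [greedyLength]
  | node a l r ihl ihr =>
    rw [treeHeight_node, greedyLength]
    split_ifs
    · have := le_max_left (treeHeight l) (treeHeight r)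
      omega
    · have := le_max_right (treeHeight l) (treeHeight r)
      omega

lemma q_nonneg (m i : ℕ) (h : i ≤ m) : 0 ≤ q m i := by
  have h0 : (i : ℝ) ≤ m := by exact_mod_cast h
  have h1 : (0 : ℝ) ≤ (m : ℝ) - i := by linarith
  have h2 : (0 : ℝ) ≤ (harmonic (m - 1) : ℝ) := by
    rw [H_eq_harmonic]; exact H_nonneg _
  unfold q
  positivity

lemma treeProb_nonneg (t : BinaryTree Unit) : 0 ≤ treeProb t := by
  induction t with
  | nil => simp [treeProb]
  | node _ l r ihl ihr =>
    rw [treeProb]
    exact mul_nonneg (q_nonneg _ _ (Nat.le_add_right _ _)) (mul_nonneg ihl ihr)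

/-- Expectation over the trees with `N` internal nodes. -/
noncomputable def E (N : ℕ) (f : BinaryTree Unit → ℝ) : ℝ :=
  ∑ t ∈ treesOfNumNodesEq N, treeProb t * f t

lemma E_mono (N : ℕ) {f g : BinaryTree Unit → ℝ} (h : ∀ t, f t ≤ g t) : E N f ≤ E N g :=
  sum_le_sum fun t _ => mul_le_mul_of_nonneg_left (h t) (treeProb_nonneg t)

lemma E_const (N : ℕ) (c : ℝ) : E N (fun _ => c) = c := by
  unfold E
  rw [← sum_mul, total_mass, one_mul]

lemma E_add (N : ℕ) (f g : BinaryTree Unit → ℝ) : E N (fun t => f t + g t) = E N f + E N g := by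
  unfold E
  rw [← sum_add_distrib]
  exact sum_congr rfl fun t _ => by ring

lemma E_sub (N : ℕ) (f g : BinaryTree Unit → ℝ) : E N (fun t => f t - g t) = E N f - E N g := by
  unfold E
  rw [← sum_sub_distrib]
  exact sum_congr rfl fun t _ => by ring

lemma E_smul (N : ℕ) (c : ℝ) (f : BinaryTree Unit → ℝ) : E N (fun t => c * f t) = c * E N f := by
  unfold E
  rw [mul_sum]
  exact sum_congr rfl fun t _ => by ring

/-- The splitting recursion for expectations. -/
lemma E_succ (N : ℕ) (hN : 1 ≤ N) (F : BinaryTree Unit → ℝ) :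
    E N F = ∑ i ∈ range N, W N i * ∑ l ∈ treesOfNumNodesEq i, ∑ r ∈ treesOfNumNodesEq (N - 1 - i),
          treeProb l * treeProb r * F (.node () l r) := sum_succ N hN F

/-- The tail probabilities of the height. -/
noncomputable def p (k N : ℕ) : ℝ := E N (fun t => if k ≤ treeHeight t then 1 else 0)

lemma p_zero (N : ℕ) : p 0 N = 1 := by
  unfold p
  simp only [Nat.zero_le, if_true]
  exact E_const N 1

lemma p_nonneg (k N : ℕ) : 0 ≤ p k N := by
  have h := E_mono N (f := fun _ => (0 : ℝ)) (g := fun t => if k ≤ treeHeight t then 1 else 0)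
    (fun t => by split_ifs <;> norm_num)
  rw [E_const] at h
  exact h

lemma p_le_one (k N : ℕ) : p k N ≤ 1 := by
  have h := E_mono N (g := fun _ => (1 : ℝ)) (f := fun t => if k ≤ treeHeight t then 1 else 0)
    (fun t => by split_ifs <;> norm_num)
  rw [E_const] at h
  exact h

lemma sum_prod {i j : ℕ} (F G : BinaryTree Unit → ℝ) :
    ∑ l ∈ treesOfNumNodesEq i, ∑ r ∈ treesOfNumNodesEq j, treeProb l * treeProb r * (F l * G r)
      = E i F * E j G := by
  unfold E
  rw [sum_mul_sum]
  exact sum_congr rfl fun l _ => sum_congr rfl fun r _ => by ring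

lemma p_succ (k N : ℕ) (hN : 1 ≤ N) :
    p (k + 1) N = ∑ i ∈ range N, W N i *
      (p k i + p k (N - 1 - i) - p k i * p k (N - 1 - i)) := by
  unfold p
  rw [E_succ N hN]
  refine sum_congr rfl fun i _ => ?_
  congr 1
  have e1 : E i (fun t => if k ≤ treeHeight t then 1 else 0)
      = ∑ l ∈ treesOfNumNodesEq i, ∑ r ∈ treesOfNumNodesEq (N - 1 - i),
          treeProb l * treeProb r * (if k ≤ treeHeight l then 1 else 0) := by
    rw [sum_left]; rfl
  have e2 : E (N - 1 - i) (fun t => if k ≤ treeHeight t then 1 else 0)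
      = ∑ l ∈ treesOfNumNodesEq i, ∑ r ∈ treesOfNumNodesEq (N - 1 - i),
          treeProb l * treeProb r * (if k ≤ treeHeight r then 1 else 0) := by
    rw [sum_right (i := i) (F := fun r => if k ≤ treeHeight r then 1 else 0)]; rfl
  have e3 := sum_prod (i := i) (j := N - 1 - i) (fun l => if k ≤ treeHeight l then (1 : ℝ) else 0)
    (fun r => if k ≤ treeHeight r then (1 : ℝ) else 0)
  rw [← e3, e1, e2, ← sum_add_distrib, ← sum_sub_distrib]
  refine sum_congr rfl fun l _ => ?_
  rw [← sum_add_distrib, ← sum_sub_distrib]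
  refine sum_congr rfl fun r _ => ?_
  rw [treeHeight_node]
  by_cases h1 : k ≤ treeHeight l <;> by_cases h2 : k ≤ treeHeight r
  · rw [if_pos (by omega), if_pos h1, if_pos h2]; ring
  · rw [if_pos (by omega), if_pos h1, if_neg h2]; ring
  · rw [if_pos (by omega), if_neg h1, if_pos h2]; ring
  · rw [if_neg (by omega), if_neg h1, if_neg h2]; ring

/-- Symmetric summands: the weights can be replaced by `1/(H_N (i+1))`. -/
lemma sum_W_symm (N : ℕ) (S : ℕ → ℝ) (hS : ∀ i, i < N → S (N - 1 - i) = S i) :
    ∑ i ∈ range N, W N i * S i = (1 / H N) * ∑ i ∈ range N, 1 / ((i : ℝ) + 1) * S i := by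
  have h1 : ∑ i ∈ range N, 1 / ((N : ℝ) - i) * S i = ∑ i ∈ range N, 1 / ((i : ℝ) + 1) * S i := by
    rw [← sum_range_reflect]
    refine sum_congr rfl fun i hi => ?_
    have hi' := mem_range.mp hi
    rw [hS i hi', Nat.cast_sub (by omega), Nat.cast_sub (by omega)]
    push_cast
    congr 2
    ring
  have h2 : ∑ i ∈ range N, W N i * S i = 1 / (2 * H N) *
      (∑ i ∈ range N, 1 / ((i : ℝ) + 1) * S i + ∑ i ∈ range N, 1 / ((N : ℝ) - i) * S i) := by
    rw [← sum_add_distrib, mul_sum]
    refine sum_congr rfl fun i _ => ?_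
    unfold W
    ring
  rw [h2, h1]
  ring

lemma p_succ' (k N : ℕ) (hN : 1 ≤ N) :
    p (k + 1) N = (1 / H N) * ∑ i ∈ range N, 1 / ((i : ℝ) + 1) *
      (p k i + p k (N - 1 - i) - p k i * p k (N - 1 - i)) := by
  rw [p_succ k N hN]
  refine sum_W_symm N _ fun i hi => ?_
  have h : N - 1 - (N - 1 - i) = i := by omega
  rw [h]
  ring

end Pool.Agent.J4.H90.CBS
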