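import Mathlib
import Pool.Agent.J4.H90.CBS.Height

/-!
Estimates for harmonic sums against the square root profile.
-/

namespace Pool.Agent.J4.H90.CBS

open BinaryTree Finset Filter Topology Pool.Agent.R982.CBS

lemma H_diff_ge {A B : ℕ} (h : A ≤ B) :
    Real.log (((B : ℝ) + 1) / ((A : ℝ) + 1)) ≤ H B - H A := by
  have h1 := Real.strictMono_eulerMascheroniSeq.monotone h
  unfold Real.eulerMascheroniSeq at h1
  rw [H_eq_harmonic, H_eq_harmonic] at h1
  rw [Real.log_div (by positivity) (by positivity)]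
  linarith

lemma H_diff_le {A B : ℕ} (h0 : 1 ≤ A) (h : A ≤ B) :
    H B - H A ≤ Real.log ((B : ℝ) / (A : ℝ)) := by
  have h1 := Real.strictAnti_eulerMascheroniSeq'.antitone h
  unfold Real.eulerMascheroniSeq' at h1
  rw [if_neg (by omega), if_neg (by omega), H_eq_harmonic, H_eq_harmonic] at h1
  have hA : (0 : ℝ) < A := by exact_mod_cast h0
  have hB : (0 : ℝ) < B := by exact_mod_cast (h0.trans h)
  rw [Real.log_div hB.ne' hA.ne']
  linarith

lemma log_le_H (N : ℕ) : Real.log ((N : ℝ) + 1) ≤ H N := by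
  have h := H_diff_ge (Nat.zero_le N)
  rw [H_zero] at h
  simpa using h

lemma H_le_log (N : ℕ) (hN : 1 ≤ N) : H N ≤ 1 + Real.log N := by
  have h := H_diff_le le_rfl hN
  have h1 : H 1 = 1 := by rw [H_succ, H_zero]; norm_num
  rw [h1] at h
  simp at h
  linarith

/-- The elementary square root inequality with `κ = 0.1716`. -/
lemma sqrt_ineq {x : ℝ} (h0 : 0 ≤ x) (h1 : x ≤ 1 / 2) :
    1 - √(1 - x) ≤ x / 2 + 0.1716 * x ^ 2 := by
  have h2 : (1 - x / 2 - 0.1716 * x ^ 2) ≤ √(1 - x) := by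
    apply Real.le_sqrt_of_sq_le
    nlinarith [mul_nonneg h0 (sub_nonneg.mpr h1), sq_nonneg x,
      mul_nonneg (sq_nonneg x) (sub_nonneg.mpr h1),
      mul_nonneg (mul_nonneg (sq_nonneg x) h0) (sub_nonneg.mpr h1)]
  linarith

/-- The sum of the relative losses, `K_m` with `m = N + 1`. -/
noncomputable def K (N : ℕ) : ℝ :=
  ∑ i ∈ range N, 1 / ((i : ℝ) + 1) * (1 - √((max i (N - 1 - i) : ℕ) + 1 : ℝ) / √((N : ℝ) + 1))

lemma K_term {N i : ℕ} (hi : i < N) :
    1 / ((i : ℝ) + 1) * (1 - √((max i (N - 1 - i) : ℕ) + 1 : ℝ) / √((N : ℝ) + 1))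
      ≤ 0.1716 * ((i : ℝ) + 1) / ((N : ℝ) + 1) ^ 2 + (if i < (N + 1) / 2 then 1 / (2 * ((N : ℝ) + 1))
        else 0.6716 / ((i : ℝ) + 1) - 0.8432 / ((N : ℝ) + 1)) := by
  have hm : (0 : ℝ) < (N : ℝ) + 1 := by positivity
  have ha : (0 : ℝ) < (i : ℝ) + 1 := by positivity
  have hiN : (i : ℝ) + 1 ≤ N := by exact_mod_cast hi
  rw [← Real.sqrt_div (by positivity)]
  by_cases h : i < (N + 1) / 2
  · rw [if_pos h]
    have hmax : max i (N - 1 - i) = N - 1 - i := max_eq_right (by omega)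
    have h1 : (((N - 1 - i : ℕ) : ℝ) + 1) / ((N : ℝ) + 1) = 1 - ((i : ℝ) + 1) / ((N : ℝ) + 1) := by
      have e : ((N - 1 - i : ℕ) : ℝ) = (N : ℝ) - 1 - i := by
        rw [Nat.cast_sub (by omega), Nat.cast_sub (by omega)]; push_cast; ring
      rw [e]
      field_simp
      ring
    have h2 : 2 * ((i : ℝ) + 1) ≤ (N : ℝ) + 1 := by
      have : 2 * (i + 1) ≤ N + 1 := by omega
      exact_mod_cast this
    have h3 := sqrt_ineq (x := ((i : ℝ) + 1) / ((N : ℝ) + 1)) (by positivity) (by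
      rw [div_le_iff₀ hm]; linarith)
    rw [hmax, h1]
    calc 1 / ((i : ℝ) + 1) * (1 - √(1 - ((i : ℝ) + 1) / ((N : ℝ) + 1)))
        ≤ 1 / ((i : ℝ) + 1) * (((i : ℝ) + 1) / ((N : ℝ) + 1) / 2
          + 0.1716 * (((i : ℝ) + 1) / ((N : ℝ) + 1)) ^ 2) := by gcongr
      _ = _ := by
        field_simp
        ring
  · rw [if_neg h]
    have hmax : max i (N - 1 - i) = i := max_eq_left (by omega)
    have h1 : ((i : ℝ) + 1) / ((N : ℝ) + 1) = 1 - ((N : ℝ) - i) / ((N : ℝ) + 1) := by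
      field_simp
      ring
    have h2 : (N : ℝ) + 1 ≤ 2 * ((i : ℝ) + 1) := by
      have : N + 1 ≤ 2 * (i + 1) := by omega
      exact_mod_cast this
    have h3 := sqrt_ineq (x := ((N : ℝ) - i) / ((N : ℝ) + 1)) (by
      apply div_nonneg _ hm.le; linarith) (by
      rw [div_le_iff₀ hm]; linarith)
    rw [hmax, h1]
    calc 1 / ((i : ℝ) + 1) * (1 - √(1 - ((N : ℝ) - i) / ((N : ℝ) + 1)))
        ≤ 1 / ((i : ℝ) + 1) * (((N : ℝ) - i) / ((N : ℝ) + 1) / 2
          + 0.1716 * (((N : ℝ) - i) / ((N : ℝ) + 1)) ^ 2) := by gcongr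
      _ = _ := by
        field_simp
        ring

lemma sum_succ_cast (N : ℕ) : ∑ i ∈ range N, ((i : ℝ) + 1) = (N : ℝ) * ((N : ℝ) + 1) / 2 := by
  induction N with
  | zero => simp
  | succ N ih => rw [sum_range_succ, ih]; push_cast; ring

lemma K_le {N : ℕ} (hN : 100 ≤ N) : K N ≤ 0.39 := by
  have hm : (0 : ℝ) < (N : ℝ) + 1 := by positivity
  have hNr : (100 : ℝ) ≤ N := by exact_mod_cast hN
  set h := (N + 1) / 2 with hh
  have hhN : h ≤ N := by omega
  have h1 : K N ≤ ∑ i ∈ range N, (0.1716 * ((i : ℝ) + 1) / ((N : ℝ) + 1) ^ 2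
      + (if i < h then 1 / (2 * ((N : ℝ) + 1))
        else 0.6716 / ((i : ℝ) + 1) - 0.8432 / ((N : ℝ) + 1))) :=
    sum_le_sum fun i hi => K_term (mem_range.mp hi)
  have h2 : ∑ i ∈ range N, (if i < h then 1 / (2 * ((N : ℝ) + 1))
        else 0.6716 / ((i : ℝ) + 1) - 0.8432 / ((N : ℝ) + 1))
      = h / (2 * ((N : ℝ) + 1)) + 0.6716 * (H N - H h) - (N - h) * (0.8432 / ((N : ℝ) + 1)) := by
    rw [← sum_range_add_sum_Ico _ hhN]
    have a1 : ∑ i ∈ range h, (if i < h then 1 / (2 * ((N : ℝ) + 1))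
        else 0.6716 / ((i : ℝ) + 1) - 0.8432 / ((N : ℝ) + 1)) = h / (2 * ((N : ℝ) + 1)) := by
      rw [sum_congr rfl (fun i hi => if_pos (mem_range.mp hi)), sum_const, card_range,
        nsmul_eq_mul]
      ring
    have a2 : ∑ i ∈ Ico h N, (if i < h then 1 / (2 * ((N : ℝ) + 1))
        else 0.6716 / ((i : ℝ) + 1) - 0.8432 / ((N : ℝ) + 1))
        = 0.6716 * (H N - H h) - (N - h) * (0.8432 / ((N : ℝ) + 1)) := by
      rw [sum_congr rfl (fun i hi => if_neg (not_lt.mpr (mem_Ico.mp hi).1)), sum_sub_distrib,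
        sum_const, Nat.card_Ico, nsmul_eq_mul, Nat.cast_sub hhN]
      congr 1
      have a3 : H N = H h + ∑ i ∈ Ico h N, 1 / ((i : ℝ) + 1) := by
        unfold H
        rw [sum_range_add_sum_Ico _ hhN]
      rw [a3, add_sub_cancel_left, mul_sum]
      exact sum_congr rfl fun i _ => by ring
    rw [a1, a2]
    ring
  rw [sum_add_distrib, h2] at h1
  have h3 : ∑ i ∈ range N, 0.1716 * ((i : ℝ) + 1) / ((N : ℝ) + 1) ^ 2 ≤ 0.0858 := by
    rw [← sum_div, ← mul_sum, sum_succ_cast, div_le_iff₀ (by positivity)]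
    nlinarith
  have hle : (h : ℝ) ≤ ((N : ℝ) + 1) / 2 := by
    have : 2 * h ≤ N + 1 := by omega
    have h' : (2 : ℝ) * h ≤ (N : ℝ) + 1 := by exact_mod_cast this
    linarith
  have hge : (N : ℝ) ≤ 2 * h := by
    have : N ≤ 2 * h := by omega
    exact_mod_cast this
  have h4 : (h : ℝ) / (2 * ((N : ℝ) + 1)) ≤ 1 / 4 := by
    rw [div_le_iff₀ (by positivity)]; linarith
  have h5 : H N - H h ≤ 0.6932 := by
    have hpos : (0 : ℝ) < h := by linarith
    refine (H_diff_le (by omega : 1 ≤ h) hhN).trans ?_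
    have : Real.log ((N : ℝ) / h) ≤ Real.log 2 := by
      apply Real.log_le_log (by positivity)
      rw [div_le_iff₀ hpos]; linarith
    have := Real.log_two_lt_d9
    linarith
  have h6 : 0.4132 ≤ ((N : ℝ) - h) * (0.8432 / ((N : ℝ) + 1)) := by
    rw [mul_div_assoc', le_div_iff₀ hm]
    nlinarith
  linarith

lemma K2_ge {N : ℕ} (hN : 256 ≤ N + 1) :
    1 ≤ ∑ i ∈ Ico ((N + 1) / 4) (3 * (N + 1) / 4), 1 / ((i : ℝ) + 1) := by
  set A := (N + 1) / 4 with hA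
  set B := 3 * (N + 1) / 4 with hB
  have hAB : A ≤ B := by omega
  have h1 : ∑ i ∈ Ico A B, 1 / ((i : ℝ) + 1) = H B - H A := by
    unfold H
    rw [← sum_range_add_sum_Ico _ hAB]
    ring
  rw [h1]
  refine le_trans ?_ (H_diff_ge hAB)
  rw [Real.le_log_iff_exp_le (by positivity)]
  have h2 := Real.exp_one_lt_d9
  have hNr : (256 : ℝ) ≤ (N : ℝ) + 1 := by exact_mod_cast hN
  have h3 : (A : ℝ) ≤ ((N : ℝ) + 1) / 4 := by
    have : 4 * A ≤ N + 1 := by omega
    have h' : (4 : ℝ) * A ≤ (N : ℝ) + 1 := by exact_mod_cast this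
    linarith
  have h4 : 3 * ((N : ℝ) + 1) / 4 ≤ (B : ℝ) + 1 := by
    have : 3 * (N + 1) ≤ 4 * (B + 1) := by omega
    have h' : 3 * ((N : ℝ) + 1) ≤ 4 * ((B : ℝ) + 1) := by exact_mod_cast this
    linarith
  have hA1 : (0 : ℝ) < (A : ℝ) + 1 := by positivity
  rw [le_div_iff₀ hA1]
  have h5 : Real.exp 1 * ((A : ℝ) + 1) ≤ 2.72 * (((N : ℝ) + 1) / 4 + 1) := by
    gcongr
    linarith
  linarith

end Pool.Agent.J4.H90.CBS
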