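import Mathlib
import Pool.Agent.J4.H90.CBS.Kernel

/-!
A sub-solution for the tail probabilities of the height.
-/

namespace Pool.Agent.J4.H90.CBS

open BinaryTree Finset Filter Topology Pool.Agent.R982.CBS

/-- The profile. -/
noncomputable def g (L m : ℝ) : ℝ := (1 / 200) * max 0 (min (√m * Real.exp (-L / 2)) 16 - 1)

lemma g_nonneg (L m : ℝ) : 0 ≤ g L m := by
  unfold g
  have := le_max_left 0 (min (√m * Real.exp (-L / 2)) 16 - 1)
  positivity

lemma g_le (L m : ℝ) : g L m ≤ 0.075 := by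
  unfold g
  have h : max 0 (min (√m * Real.exp (-L / 2)) 16 - 1) ≤ 15 := by
    apply max_le (by norm_num)
    have := min_le_right (√m * Real.exp (-L / 2)) 16
    linarith
  linarith

lemma g_ge (L m : ℝ) : (1 / 200) * (min (√m * Real.exp (-L / 2)) 16 - 1) ≤ g L m := by
  unfold g
  have := le_max_right 0 (min (√m * Real.exp (-L / 2)) 16 - 1)
  linarith

lemma sub_step {L L' : ℝ} (hL : 100 ≤ L)
    (hL' : Real.exp (-L' / 2) = Real.exp (-L / 2) * (1 - 0.39 / L)) {N : ℕ} (hN : 1 ≤ N) :
    g L' ((N : ℝ) + 1) * H N ≤ ∑ i ∈ range N, 1 / ((i : ℝ) + 1) *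
      (g L ((i : ℝ) + 1) + g L (((N - 1 - i : ℕ) : ℝ) + 1)
        - g L ((i : ℝ) + 1) * g L (((N - 1 - i : ℕ) : ℝ) + 1)) := by
  have hL0 : (0 : ℝ) < L := by linarith
  have hδ0 : 0 < 0.39 / L := by positivity
  have hδ1 : 0.39 / L ≤ 0.0039 := by rw [div_le_iff₀ hL0]; linarith
  have hm : (0 : ℝ) < (N : ℝ) + 1 := by positivity
  set r := √((N : ℝ) + 1) * Real.exp (-L / 2) with hr
  have hr0 : 0 < r := by positivity
  have hsq : 0 < √((N : ℝ) + 1) := by positivity
  have hr' : √((N : ℝ) + 1) * Real.exp (-L' / 2) = r * (1 - 0.39 / L) := by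
    rw [hL', hr]; ring
  have hHN := H_pos hN
  have hrat : ∀ i < N, 0 ≤ √((max i (N - 1 - i) : ℕ) + 1 : ℝ) / √((N : ℝ) + 1)
      ∧ √((max i (N - 1 - i) : ℕ) + 1 : ℝ) / √((N : ℝ) + 1) ≤ 1 := by
    intro i hi
    constructor
    · positivity
    · rw [div_le_one hsq]
      apply Real.sqrt_le_sqrt
      have : max i (N - 1 - i) ≤ N := max_le (by omega) (by omega)
      have : ((max i (N - 1 - i) : ℕ) : ℝ) ≤ N := by exact_mod_cast this
      linarith
  have hMr : ∀ i, √((max i (N - 1 - i) : ℕ) + 1 : ℝ) * Real.exp (-L / 2)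
      = r * (√((max i (N - 1 - i) : ℕ) + 1 : ℝ) / √((N : ℝ) + 1)) := by
    intro i
    rw [hr]
    field_simp
  -- comparison of the summand with the larger part
  have hS : ∀ i, g L (((max i (N - 1 - i) : ℕ) : ℝ) + 1) ≤ g L ((i : ℝ) + 1)
      + g L (((N - 1 - i : ℕ) : ℝ) + 1) - g L ((i : ℝ) + 1) * g L (((N - 1 - i : ℕ) : ℝ) + 1) := by
    intro i
    have a0 := g_nonneg L ((i : ℝ) + 1)
    have a1 := g_le L ((i : ℝ) + 1)
    have b0 := g_nonneg L (((N - 1 - i : ℕ) : ℝ) + 1)
    have b1 := g_le L (((N - 1 - i : ℕ) : ℝ) + 1)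
    rcases le_total i (N - 1 - i) with h | h
    · rw [max_eq_right h]
      nlinarith
    · rw [max_eq_left h]
      nlinarith
  have hS2 : ∀ (i : ℕ) (c : ℝ), c ≤ g L ((i : ℝ) + 1) → c ≤ g L (((N - 1 - i : ℕ) : ℝ) + 1) → 0 ≤ c →
      g L (((max i (N - 1 - i) : ℕ) : ℝ) + 1) + 0.925 * c ≤ g L ((i : ℝ) + 1)
      + g L (((N - 1 - i : ℕ) : ℝ) + 1) - g L ((i : ℝ) + 1) * g L (((N - 1 - i : ℕ) : ℝ) + 1) := by
    intro i c hc1 hc2 hc0
    have a0 := g_nonneg L ((i : ℝ) + 1)
    have a1 := g_le L ((i : ℝ) + 1)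
    have b0 := g_nonneg L (((N - 1 - i : ℕ) : ℝ) + 1)
    have b1 := g_le L (((N - 1 - i : ℕ) : ℝ) + 1)
    rcases le_total i (N - 1 - i) with h | h
    · rw [max_eq_right h]
      nlinarith
    · rw [max_eq_left h]
      nlinarith
  by_cases hA : r * (1 - 0.39 / L) ≤ 1
  · -- trivial case
    have h0 : g L' ((N : ℝ) + 1) = 0 := by
      unfold g
      rw [hr']
      have h1 : min (r * (1 - 0.39 / L)) 16 - 1 ≤ 0 := by
        have := min_le_left (r * (1 - 0.39 / L)) 16
        linarith
      rw [max_eq_left h1, mul_zero]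
    rw [h0, zero_mul]
    refine sum_nonneg fun i hi => ?_
    have := (g_nonneg L _).trans (hS i)
    positivity
  · rw [not_le] at hA
    have hr1 : 1 < r := by nlinarith
    -- `m > exp L`
    have hmL : Real.exp L < (N : ℝ) + 1 := by
      have h1 : Real.exp (L / 2) < √((N : ℝ) + 1) := by
        have h2 : Real.exp (L / 2) * 1 < Real.exp (L / 2) * r :=
          mul_lt_mul_of_pos_left hr1 (Real.exp_pos _)
        have h3 : Real.exp (L / 2) * r = √((N : ℝ) + 1) := by
          rw [hr, mul_left_comm, ← Real.exp_add]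
          ring_nf
          simp
        rw [h3, mul_one] at h2
        exact h2
      have h2 : Real.exp L = Real.exp (L / 2) ^ 2 := by
        rw [← Real.exp_nat_mul]; congr 1; push_cast; ring
      rw [h2, ← Real.sq_sqrt hm.le]
      exact pow_lt_pow_left₀ h1 (Real.exp_pos _).le two_ne_zero
    have hN100 : 100 ≤ N := by
      have h1 := Real.add_one_le_exp L
      have h2 : (100 : ℝ) < N + 1 := by linarith
      have h3 : 100 < N + 1 := by exact_mod_cast h2
      omega
    have hK := K_le hN100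
    unfold K at hK
    have hHL : L ≤ H N := by
      have h1 := log_le_H N
      have h2 : L ≤ Real.log ((N : ℝ) + 1) := by
        rw [Real.le_log_iff_exp_le hm]; exact hmL.le
      linarith
    have hHeq : H N = ∑ i ∈ range N, 1 / ((i : ℝ) + 1) := rfl
    by_cases hB : r ≤ 16
    · have h1 : g L' ((N : ℝ) + 1) ≤ (1 / 200) * (r * (1 - 0.39 / L) - 1) := by
        unfold g
        rw [hr']
        have h1 : max 0 (min (r * (1 - 0.39 / L)) 16 - 1) ≤ r * (1 - 0.39 / L) - 1 := by
          apply max_le (by linarith)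
          have := min_le_left (r * (1 - 0.39 / L)) 16
          linarith
        linarith
      have h2 : ∀ i ∈ range N, 1 / ((i : ℝ) + 1) * ((1 / 200) * (r - 1)) - (1 / 200) * r *
          (1 / ((i : ℝ) + 1) * (1 - √((max i (N - 1 - i) : ℕ) + 1 : ℝ) / √((N : ℝ) + 1)))
          ≤ 1 / ((i : ℝ) + 1) *
          (g L ((i : ℝ) + 1) + g L (((N - 1 - i : ℕ) : ℝ) + 1)
            - g L ((i : ℝ) + 1) * g L (((N - 1 - i : ℕ) : ℝ) + 1)) := by
        intro i hi
        have hi' := mem_range.mp hi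
        obtain ⟨q0, q1⟩ := hrat i hi'
        have h3 := g_ge L (((max i (N - 1 - i) : ℕ) : ℝ) + 1)
        rw [hMr i] at h3
        have h4 : min (r * (√((max i (N - 1 - i) : ℕ) + 1 : ℝ) / √((N : ℝ) + 1))) 16
            = r * (√((max i (N - 1 - i) : ℕ) + 1 : ℝ) / √((N : ℝ) + 1)) := by
          apply min_eq_left
          nlinarith
        rw [h4] at h3
        have h5 := h3.trans (hS i)
        have h6 : (0 : ℝ) < 1 / ((i : ℝ) + 1) := by positivity
        have h7 := mul_le_mul_of_nonneg_left h5 h6.le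
        refine le_trans (le_of_eq ?_) h7
        ring
      refine le_trans ?_ (sum_le_sum h2)
      rw [sum_sub_distrib, ← mul_sum, ← sum_mul, ← hHeq]
      have h3 : (1 / 200) * r * ∑ i ∈ range N, (1 / ((i : ℝ) + 1) *
          (1 - √((max i (N - 1 - i) : ℕ) + 1 : ℝ) / √((N : ℝ) + 1))) ≤ (1 / 200) * r * 0.39 := by
        gcongr
      have h4 : g L' ((N : ℝ) + 1) * H N ≤ (1 / 200) * (r * (1 - 0.39 / L) - 1) * H N := by
        gcongr
      have h5 : 0.39 ≤ 0.39 / L * H N := by
        rw [div_mul_eq_mul_div, le_div_iff₀ hL0]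
        linarith
      have h6 : (1 / 200) * r * 0.39 ≤ (1 / 200) * r * (0.39 / L * H N) := by gcongr
      nlinarith
    · rw [not_le] at hB
      have hN256 : 256 ≤ N + 1 := by
        have h1 : (16 : ℝ) < √((N : ℝ) + 1) := by
          have : Real.exp (-L / 2) ≤ 1 := by
            rw [← Real.exp_zero]
            apply Real.exp_le_exp.mpr
            linarith
          have h2 : r ≤ √((N : ℝ) + 1) := by
            rw [hr]; nlinarith
          linarith
        have h2 : (256 : ℝ) < (N : ℝ) + 1 := by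
          rw [← Real.sq_sqrt hm.le]
          nlinarith
        have h3 : 256 < N + 1 := by exact_mod_cast h2
        omega
      have hK2 := K2_ge hN256
      -- the bound for each summand
      have h2 : ∀ i ∈ range N, 1 / ((i : ℝ) + 1) * (0.075) - (16 / 200) *
          (1 / ((i : ℝ) + 1) * (1 - √((max i (N - 1 - i) : ℕ) + 1 : ℝ) / √((N : ℝ) + 1)))
          + (if i ∈ Ico ((N + 1) / 4) (3 * (N + 1) / 4) then 0.032375 * (1 / ((i : ℝ) + 1)) else 0)
          ≤ 1 / ((i : ℝ) + 1) *
          (g L ((i : ℝ) + 1) + g L (((N - 1 - i : ℕ) : ℝ) + 1)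
            - g L ((i : ℝ) + 1) * g L (((N - 1 - i : ℕ) : ℝ) + 1)) := by
        intro i hi
        have hi' := mem_range.mp hi
        obtain ⟨q0, q1⟩ := hrat i hi'
        have h3 := g_ge L (((max i (N - 1 - i) : ℕ) : ℝ) + 1)
        rw [hMr i] at h3
        obtain ⟨ρ, hρ⟩ : ∃ ρ, ρ = √((max i (N - 1 - i) : ℕ) + 1 : ℝ) / √((N : ℝ) + 1) := ⟨_, rfl⟩
        rw [← hρ] at q0 q1 h3 ⊢
        have h4 : 16 * ρ ≤ min (r * ρ) 16 := by
          apply le_min
          · exact mul_le_mul_of_nonneg_right hB.le q0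
          · linarith
        have h6 : (0 : ℝ) < 1 / ((i : ℝ) + 1) := by positivity
        by_cases hmem : i ∈ Ico ((N + 1) / 4) (3 * (N + 1) / 4)
        · rw [if_pos hmem]
          rw [mem_Ico] at hmem
          have hlow : ∀ j : ℕ, N + 1 ≤ 4 * (j + 1) → 0.035 ≤ g L ((j : ℝ) + 1) := by
            intro j hj
            refine le_trans ?_ (g_ge L _)
            have hj' : ((N : ℝ) + 1) / 4 ≤ (j : ℝ) + 1 := by
              have : ((N : ℝ) + 1) ≤ 4 * ((j : ℝ) + 1) := by exact_mod_cast hj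
              linarith
            have h8 : r / 2 ≤ √((j : ℝ) + 1) * Real.exp (-L / 2) := by
              have h9 : √((N : ℝ) + 1) / 2 ≤ √((j : ℝ) + 1) := by
                have h10 : √((N : ℝ) + 1) / 2 = √(((N : ℝ) + 1) / 4) := by
                  rw [Real.sqrt_div hm.le]
                  congr 1
                  rw [show (4 : ℝ) = 2 ^ 2 by norm_num, Real.sqrt_sq (by norm_num)]
                rw [h10]
                exact Real.sqrt_le_sqrt hj'
              calc r / 2 = √((N : ℝ) + 1) / 2 * Real.exp (-L / 2) := by rw [hr]; ring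
                _ ≤ _ := by gcongr
            have h9 : 8 ≤ min (√((j : ℝ) + 1) * Real.exp (-L / 2)) 16 :=
              le_min (by linarith) (by norm_num)
            linarith
          have h8 := hS2 i 0.035 (hlow i (by omega)) (hlow (N - 1 - i) (by omega)) (by norm_num)
          have h9 : (1 / 200) * (16 * ρ - 1) + 0.925 * 0.035 ≤ g L ((i : ℝ) + 1)
            + g L (((N - 1 - i : ℕ) : ℝ) + 1)
              - g L ((i : ℝ) + 1) * g L (((N - 1 - i : ℕ) : ℝ) + 1) := by linarith
          have h7 := mul_le_mul_of_nonneg_left h9 h6.le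
          refine le_trans (le_of_eq ?_) h7
          ring
        · rw [if_neg hmem]
          have h9 : (1 / 200) * (16 * ρ - 1) ≤ g L ((i : ℝ) + 1)
            + g L (((N - 1 - i : ℕ) : ℝ) + 1)
              - g L ((i : ℝ) + 1) * g L (((N - 1 - i : ℕ) : ℝ) + 1) := by linarith [hS i]
          have h7 := mul_le_mul_of_nonneg_left h9 h6.le
          refine le_trans (le_of_eq ?_) h7
          ring
      refine le_trans ?_ (sum_le_sum h2)
      rw [sum_add_distrib, sum_sub_distrib, ← mul_sum, ← sum_mul, ← hHeq, sum_ite, sum_const_zero,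
        add_zero, ← mul_sum]
      have h3 : (16 / 200) * ∑ i ∈ range N, (1 / ((i : ℝ) + 1) *
          (1 - √((max i (N - 1 - i) : ℕ) + 1 : ℝ) / √((N : ℝ) + 1))) ≤ (16 / 200) * 0.39 := by
        gcongr
      have h4 : g L' ((N : ℝ) + 1) * H N ≤ 0.075 * H N := by
        gcongr
        exact g_le _ _
      have h5 : (range N).filter (fun i => i ∈ Ico ((N + 1) / 4) (3 * (N + 1) / 4))
          = Ico ((N + 1) / 4) (3 * (N + 1) / 4) := by
        ext i
        simp only [mem_filter, mem_range, mem_Ico]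
        omega
      rw [h5]
      linarith

end Pool.Agent.J4.H90.CBS
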