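import Mathlib
import Pool.Agent.J4.H90.CBS.Sub

/-!
Iterating the sub-solution: a lower bound for the tail of the height.
-/

namespace Pool.Agent.J4.H90.CBS

open BinaryTree Finset Filter Topology Pool.Agent.R982.CBS

/-- The logarithmic sizes at which the height reaches level `k`. -/
noncomputable def Lk : ℕ → ℝ
  | 0 => 100
  | k + 1 => Lk k - 2 * Real.log (1 - 0.39 / Lk k)

lemma Lk_ge (k : ℕ) : 100 ≤ Lk k := by
  induction k with
  | zero => simp [Lk]
  | succ k ih =>
    rw [Lk]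
    have h0 : 0 < 0.39 / Lk k := by positivity
    have h1 : 0.39 / Lk k ≤ 0.0039 := by rw [div_le_iff₀ (by linarith)]; linarith
    have h2 : Real.log (1 - 0.39 / Lk k) ≤ 0 :=
      Real.log_nonpos (by linarith) (by linarith)
    linarith

lemma Lk_exp (k : ℕ) :
    Real.exp (-Lk (k + 1) / 2) = Real.exp (-Lk k / 2) * (1 - 0.39 / Lk k) := by
  have h0 := Lk_ge k
  have h1 : 0.39 / Lk k ≤ 0.0039 := by rw [div_le_iff₀ (by linarith)]; linarith
  have e : -Lk (k + 1) / 2 = -Lk k / 2 + Real.log (1 - 0.39 / Lk k) := by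
    rw [Lk]; ring
  rw [e, Real.exp_add, Real.exp_log (by linarith)]

lemma Lk_sq (k : ℕ) : Lk k ^ 2 ≤ 10000 + 1.58 * k := by
  induction k with
  | zero => simp [Lk]; norm_num
  | succ k ih =>
    have h0 := Lk_ge k
    set L := Lk k with hL
    have hLpos : 0 < L := by linarith
    have h1 : 0.39 / L ≤ 0.0039 := by rw [div_le_iff₀ hLpos]; linarith
    have h1' : 0 < 0.39 / L := by positivity
    have h2 : -Real.log (1 - 0.39 / L) ≤ 0.39 / (L - 0.39) := by
      have h3 := Real.one_sub_inv_le_log_of_pos (x := 1 - 0.39 / L) (by linarith)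
      have h4 : (1 - 0.39 / L)⁻¹ = 1 + 0.39 / (L - 0.39) := by
        have h5 : L - 0.39 ≠ 0 := by
          have : 0 < L - 0.39 := by linarith
          exact this.ne'
        have h6 : 1 - 0.39 / L = (L - 0.39) / L := by field_simp
        rw [h6, inv_div]
        field_simp
        ring
      rw [h4] at h3
      linarith
    have h3 : 0 ≤ -Real.log (1 - 0.39 / L) := by
      have := Real.log_nonpos (x := 1 - 0.39 / L) (by linarith) (by linarith)
      linarith
    have h4 : 0.39 / (L - 0.39) * L ≤ 0.3916 := by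
      rw [div_mul_eq_mul_div, div_le_iff₀ (by linarith)]
      linarith
    have h5 : 0.39 / (L - 0.39) ≤ 0.004 := by
      rw [div_le_iff₀ (by linarith)]
      linarith
    have e : Lk (k + 1) = L + 2 * (-Real.log (1 - 0.39 / L)) := by rw [Lk, ← hL]; ring
    rw [e]
    generalize -Real.log (1 - 0.39 / L) = d at *
    push_cast
    have h6 : d * L ≤ 0.3916 := le_trans (mul_le_mul_of_nonneg_right h2 hLpos.le) h4
    have h7 : d ≤ 0.004 := h2.trans h5
    nlinarith

theorem p_ge (k : ℕ) : ∀ N : ℕ, g (Lk k) ((N : ℝ) + 1) ≤ p k N := by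
  induction k with
  | zero =>
    intro N
    rw [p_zero]
    have := g_le (Lk 0) ((N : ℝ) + 1)
    linarith
  | succ k ih =>
    intro N
    rcases Nat.eq_zero_or_pos N with h0 | hN
    · subst h0
      have h1 : g (Lk (k + 1)) (((0 : ℕ) : ℝ) + 1) = 0 := by
        unfold g
        have h2 : Real.exp (-Lk (k + 1) / 2) ≤ 1 := by
          rw [← Real.exp_zero]
          apply Real.exp_le_exp.mpr
          have := Lk_ge (k + 1)
          linarith
        have h3 : min (√(((0 : ℕ) : ℝ) + 1) * Real.exp (-Lk (k + 1) / 2)) 16 - 1 ≤ 0 := by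
          have h4 := min_le_left (√(((0 : ℕ) : ℝ) + 1) * Real.exp (-Lk (k + 1) / 2)) 16
          have h5 : √(((0 : ℕ) : ℝ) + 1) = 1 := by simp
          rw [h5] at h4 ⊢
          linarith
        rw [max_eq_left h3, mul_zero]
      rw [h1]
      exact p_nonneg _ _
    · have hH := H_pos hN
      rw [p_succ' k N hN]
      have h1 := sub_step (Lk_ge k) (Lk_exp k) hN
      have h2 : ∑ i ∈ range N, 1 / ((i : ℝ) + 1) *
          (g (Lk k) ((i : ℝ) + 1) + g (Lk k) (((N - 1 - i : ℕ) : ℝ) + 1)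
          - g (Lk k) ((i : ℝ) + 1) * g (Lk k) (((N - 1 - i : ℕ) : ℝ) + 1))
          ≤ ∑ i ∈ range N, 1 / ((i : ℝ) + 1) *
          (p k i + p k (N - 1 - i) - p k i * p k (N - 1 - i)) := by
        refine sum_le_sum fun i _ => ?_
        have a0 := ih i
        have b0 := ih (N - 1 - i)
        have a1 := p_le_one k i
        have b1 := p_le_one k (N - 1 - i)
        have h6 : (0 : ℝ) < 1 / ((i : ℝ) + 1) := by positivity
        refine mul_le_mul_of_nonneg_left ?_ h6.le
        nlinarith [mul_nonneg (sub_nonneg.mpr a0) (sub_nonneg.mpr b1),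
          mul_nonneg (sub_nonneg.mpr b0) (sub_nonneg.mpr (a0.trans a1))]
      have h3 := h1.trans h2
      rw [← le_div_iff₀ hH] at h3
      refine h3.trans (le_of_eq ?_)
      rw [div_eq_inv_mul, one_div]

lemma g_eq {L m : ℝ} (h : 16 ≤ √m * Real.exp (-L / 2)) : g L m = 0.075 := by
  unfold g
  rw [min_eq_right h]
  norm_num

/-- The tail of the height is bounded below at level `0.62 log² n`. -/
theorem tail_lower : ∀ᶠ N : ℕ in atTop,
    0.075 ≤ E N (fun t => if 0.62 * Real.log ((N : ℝ) + 1) ^ 2 ≤ treeHeight t then 1 else 0) := by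
  have hlog : Tendsto (fun N : ℕ => Real.log ((N : ℝ) + 1)) atTop atTop :=
    Real.tendsto_log_atTop.comp
      (tendsto_atTop_add_const_right _ _ tendsto_natCast_atTop_atTop)
  filter_upwards [hlog.eventually_ge_atTop 2000] with N hN
  set ℓ := Real.log ((N : ℝ) + 1) with hℓ
  have hm : (0 : ℝ) < (N : ℝ) + 1 := by positivity
  set k := ⌈0.62 * ℓ ^ 2⌉₊ with hk
  have hk1 : (k : ℝ) ≤ 0.62 * ℓ ^ 2 + 1 := (Nat.ceil_lt_add_one (by positivity)).le
  have hk2 : 0.62 * ℓ ^ 2 ≤ (k : ℝ) := Nat.le_ceil _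
  have hp : p k N ≤ E N (fun t => if 0.62 * ℓ ^ 2 ≤ treeHeight t then 1 else 0) := by
    unfold p
    apply E_mono
    intro t
    by_cases h : k ≤ treeHeight t
    · rw [if_pos h, if_pos]
      have : (k : ℝ) ≤ treeHeight t := by exact_mod_cast h
      linarith
    · rw [if_neg h]
      split_ifs <;> norm_num
  refine le_trans ?_ hp
  refine le_trans ?_ (p_ge k N)
  rw [g_eq]
  have hL : Lk k ≤ ℓ - 6 := by
    have h1 := Lk_sq k
    have h2 : Lk k ^ 2 ≤ (ℓ - 6) ^ 2 := by nlinarith
    exact (abs_le_of_sq_le_sq' h2 (by linarith)).2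
  have hsq : √((N : ℝ) + 1) = Real.exp (ℓ / 2) := by
    have h1 : (N : ℝ) + 1 = Real.exp (ℓ / 2) ^ 2 := by
      rw [← Real.exp_nat_mul]
      have : ((2 : ℕ) : ℝ) * (ℓ / 2) = ℓ := by push_cast; ring
      rw [this, hℓ, Real.exp_log hm]
    rw [h1, Real.sqrt_sq (Real.exp_pos _).le]
  rw [hsq, ← Real.exp_add]
  have h3 : Real.exp 3 ≤ Real.exp (ℓ / 2 + -Lk k / 2) := by
    apply Real.exp_le_exp.mpr
    linarith
  have h4 : (16 : ℝ) ≤ Real.exp 3 := by
    have h5 : Real.exp 3 = Real.exp 1 ^ 3 := by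
      rw [← Real.exp_nat_mul]; norm_num
    have h6 := Real.exp_one_gt_d9
    rw [h5]
    have h7 : (2.7 : ℝ) ^ 3 ≤ Real.exp 1 ^ 3 := by
      apply pow_le_pow_left₀ (by norm_num)
      linarith
    norm_num at h7 ⊢
    linarith
  linarith

end Pool.Agent.J4.H90.CBS
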