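import Mathlib
import Pool.Agent.J4.H90.CBS.Tail

/-!
The second moment of the greedy path length.
-/

namespace Pool.Agent.J4.H90.CBS

open BinaryTree Finset Filter Topology Pool.Agent.R982.CBS

lemma E_greedy (N : ℕ) (hN : 1 ≤ N) (F : ℕ → ℝ) :
    E N (fun t => F (greedyLength t))
      = ∑ i ∈ range N, W N i * E (max i (N - 1 - i)) (fun t => F (1 + greedyLength t)) := by
  rw [E_succ N hN]
  refine sum_congr rfl fun i hi => ?_
  have hi' := mem_range.mp hi
  congr 1
  by_cases h : N - 1 - i ≤ i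
  · rw [max_eq_left h]
    have h1 : E i (fun t => F (1 + greedyLength t))
        = ∑ l ∈ treesOfNumNodesEq i, ∑ r ∈ treesOfNumNodesEq (N - 1 - i),
          treeProb l * treeProb r * F (1 + greedyLength l) := by
      rw [sum_left (j := N - 1 - i) (F := fun l => F (1 + greedyLength l))]; rfl
    rw [h1]
    refine sum_congr rfl fun l hl => sum_congr rfl fun r hr => ?_
    rw [greedyLength, numLeaves_of_mem hl, numLeaves_of_mem hr, if_pos (by omega)]
  · rw [max_eq_right (by omega)]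
    have h1 : E (N - 1 - i) (fun t => F (1 + greedyLength t))
        = ∑ l ∈ treesOfNumNodesEq i, ∑ r ∈ treesOfNumNodesEq (N - 1 - i),
          treeProb l * treeProb r * F (1 + greedyLength r) := by
      rw [sum_right (i := i) (F := fun r => F (1 + greedyLength r))]; rfl
    rw [h1]
    refine sum_congr rfl fun l hl => sum_congr rfl fun r hr => ?_
    rw [greedyLength, numLeaves_of_mem hl, numLeaves_of_mem hr, if_neg (by omega)]

/-- The second moment of the greedy path length. -/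
noncomputable def Q (N : ℕ) : ℝ := E N (fun t => (greedyLength t : ℝ) ^ 2)

lemma Q_nonneg (N : ℕ) : 0 ≤ Q N := by
  have h := E_mono N (f := fun _ => (0 : ℝ)) (g := fun t => (greedyLength t : ℝ) ^ 2)
    (fun t => by positivity)
  rw [E_const] at h
  exact h

lemma G_eq (N : ℕ) : G N = E N (fun t => (greedyLength t : ℝ)) := rfl

lemma Q_rec (N : ℕ) (hN : 1 ≤ N) :
    Q N = 2 * G N - 1 + ∑ i ∈ range N, W N i * Q (max i (N - 1 - i)) := by
  have h1 := E_greedy N hN (fun x => (x : ℝ) ^ 2)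
  have h2 : ∀ k, E k (fun t => (((1 + greedyLength t : ℕ) : ℝ)) ^ 2) = 1 + 2 * G k + Q k := by
    intro k
    rw [G_eq, Q, ← E_const k 1, ← E_smul, ← E_add, ← E_add]
    unfold E
    refine sum_congr rfl fun t _ => ?_
    push_cast
    ring
  have h3 : 2 * G N - 1 = ∑ i ∈ range N, W N i * (1 + 2 * G (max i (N - 1 - i))) := by
    have h4 := G_rec N hN
    have h5 : ∑ i ∈ range N, W N i * (1 + 2 * G (max i (N - 1 - i)))
        = ∑ i ∈ range N, W N i + 2 * ∑ i ∈ range N, W N i * G (max i (N - 1 - i)) := by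
      rw [mul_sum, ← sum_add_distrib]
      exact sum_congr rfl fun i _ => by ring
    rw [h5, W_sum N hN]
    linarith
  rw [Q, h1, h3, ← sum_add_distrib]
  refine sum_congr rfl fun i _ => ?_
  rw [h2]
  ring

/-- The drift function. -/
noncomputable def sg (N : ℕ) : ℝ := H2 N - H2 (N / 2) / 2

lemma sg_ge {N : ℕ} (hN : 1 ≤ N) : 1 / 2 ≤ sg N := by
  unfold sg
  have h1 := H2_mono (Nat.div_le_self N 2)
  have h2 := one_le_H2 hN
  linarith

lemma sg_tendsto : Tendsto sg atTop (𝓝 (Real.pi ^ 2 / 12)) := by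
  have h1 : Tendsto (fun N : ℕ => H2 (N / 2)) atTop (𝓝 (Real.pi ^ 2 / 6)) :=
    H2_tendsto.comp (Nat.tendsto_div_const_atTop (by norm_num))
  have h2 := H2_tendsto.sub (h1.div_const 2)
  have e : Real.pi ^ 2 / 6 - Real.pi ^ 2 / 6 / 2 = Real.pi ^ 2 / 12 := by ring
  rw [e] at h2
  exact h2

lemma drift (N : ℕ) (hN : 1 ≤ N) :
    ∑ i ∈ range N, W N i * (H N - H (max i (N - 1 - i))) = sg N / H N := chain_G.drift N hN

lemma second_le (N : ℕ) (hN : 1 ≤ N) :
    ∑ i ∈ range N, W N i * (H N - H (max i (N - 1 - i))) ^ 2 ≤ 3 / H N := by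
  have hH := H_pos hN
  rw [chain_G.second N hN]
  gcongr
  refine le_trans (sum_le_sum fun i hi => ?_) (T_le N)
  have hi' := mem_range.mp hi
  have h1 : H (N - 1 - i) ≤ H (max i (N - 1 - i)) := H_mono (le_max_right _ _)
  have h2 : H (max i (N - 1 - i)) ≤ H N := H_mono (max_le (by omega) (by omega))
  have h3 : (H N - H (max i (N - 1 - i))) ^ 2 ≤ (H N - H (N - 1 - i)) ^ 2 :=
    pow_le_pow_left₀ (by linarith) (by linarith) 2
  gcongr

lemma sum_quartic (N : ℕ) (hN : 1 ≤ N) {A B : ℝ} (hA : 0 ≤ A) (hB : 0 ≤ B) :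
    ∑ i ∈ range N, W N i * (A * H (max i (N - 1 - i)) ^ 4 + B * H (max i (N - 1 - i)) ^ 3)
      ≤ A * H N ^ 4 + B * H N ^ 3 - (4 * A * H N ^ 3 + 3 * B * H N ^ 2) * (sg N / H N)
        + (6 * A * H N ^ 2 + 3 * B * H N) * (3 / H N) := by
  have hH := H_pos hN
  have h1 : ∀ i ∈ range N,
      W N i * (A * H (max i (N - 1 - i)) ^ 4 + B * H (max i (N - 1 - i)) ^ 3)
      ≤ W N i * (A * H N ^ 4 + B * H N ^ 3)
        - (4 * A * H N ^ 3 + 3 * B * H N ^ 2) * (W N i * (H N - H (max i (N - 1 - i))))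
        + (6 * A * H N ^ 2 + 3 * B * H N) * (W N i * (H N - H (max i (N - 1 - i))) ^ 2) := by
    intro i hi
    have hi' := mem_range.mp hi
    have hW := W_nonneg hi'
    have h2 : H (max i (N - 1 - i)) ≤ H N := H_mono (max_le (by omega) (by omega))
    have h3 := H_nonneg (max i (N - 1 - i))
    obtain ⟨x, hx⟩ : ∃ x, x = H (max i (N - 1 - i)) := ⟨_, rfl⟩
    rw [← hx] at h2 h3 ⊢
    obtain ⟨y, hy⟩ : ∃ y, y = H N := ⟨_, rfl⟩
    rw [← hy] at h2 hH ⊢
    have h4 : x ^ 4 ≤ y ^ 4 - 4 * y ^ 3 * (y - x) + 6 * y ^ 2 * (y - x) ^ 2 := by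
      have e : y ^ 4 - 4 * y ^ 3 * (y - x) + 6 * y ^ 2 * (y - x) ^ 2 - x ^ 4
          = (y - x) ^ 3 * (3 * y + x) := by ring
      have : 0 ≤ (y - x) ^ 3 * (3 * y + x) := by
        apply mul_nonneg (pow_nonneg (by linarith) 3)
        linarith
      linarith
    have h5 : x ^ 3 ≤ y ^ 3 - 3 * y ^ 2 * (y - x) + 3 * y * (y - x) ^ 2 := by
      have e : y ^ 3 - 3 * y ^ 2 * (y - x) + 3 * y * (y - x) ^ 2 - x ^ 3 = (y - x) ^ 3 := by ring
      have : 0 ≤ (y - x) ^ 3 := pow_nonneg (by linarith) 3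
      linarith
    have h6 := mul_le_mul_of_nonneg_left h4 hA
    have h7 := mul_le_mul_of_nonneg_left h5 hB
    have h8 := mul_le_mul_of_nonneg_left (add_le_add h6 h7) hW
    refine h8.trans (le_of_eq ?_)
    ring
  refine (sum_le_sum h1).trans ?_
  rw [sum_add_distrib, sum_sub_distrib, ← sum_mul, ← mul_sum, ← mul_sum, W_sum N hN, one_mul,
    drift N hN]
  have h2 := second_le N hN
  have h3 : 0 ≤ 6 * A * H N ^ 2 + 3 * B * H N := by positivity
  have := mul_le_mul_of_nonneg_left h2 h3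
  linarith

theorem Q_upper {c : ℝ} (hc : 6 / Real.pi ^ 2 < c) :
    ∃ D : ℝ, ∀ N, Q N ≤ c ^ 2 * H N ^ 4 + 24 * c ^ 2 * H N ^ 3 + D := by
  have hπ := Real.pi_pos
  have hc0 : 0 < c := lt_trans (by positivity) hc
  have h1 : 1 / (2 * c) < Real.pi ^ 2 / 12 := by
    rw [div_lt_iff₀ (by positivity)] at hc ⊢
    linarith
  have hG : ∀ᶠ N in atTop, G N / H N ^ 2 < c := by
    have e : 1 / (2 * (Real.pi ^ 2 / 12)) = 6 / Real.pi ^ 2 := by field_simp; ring
    have := G_asymp
    rw [e] at this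
    exact this.eventually (eventually_lt_nhds hc)
  obtain ⟨N0, hN0⟩ := eventually_atTop.mp ((sg_tendsto.eventually (eventually_gt_nhds h1)).and
    (hG.and (H_tendsto_atTop.eventually (eventually_ge_atTop 12))))
  refine ⟨∑ j ∈ range (N0 + 1), Q j, fun N => ?_⟩
  have hD : 0 ≤ ∑ j ∈ range (N0 + 1), Q j := sum_nonneg fun j _ => Q_nonneg j
  set D := ∑ j ∈ range (N0 + 1), Q j with hDdef
  induction N using Nat.strong_induction_on with
  | _ N ih =>
    have hHn := H_nonneg N
    by_cases hcase : N < N0 + 1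
    · have h2 : Q N ≤ D :=
        single_le_sum (f := Q) (fun j _ => Q_nonneg j) (mem_range.mpr hcase)
      have : 0 ≤ c ^ 2 * H N ^ 4 + 24 * c ^ 2 * H N ^ 3 := by positivity
      linarith
    · have hN : 1 ≤ N := by omega
      obtain ⟨hσ, hg, hH12⟩ := hN0 N (by omega)
      have hH := H_pos hN
      rw [Q_rec N hN]
      have h2 : ∑ i ∈ range N, W N i * Q (max i (N - 1 - i))
          ≤ ∑ i ∈ range N, (W N i * (c ^ 2 * H (max i (N - 1 - i)) ^ 4
            + 24 * c ^ 2 * H (max i (N - 1 - i)) ^ 3) + W N i * D) := by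
        refine sum_le_sum fun i hi => ?_
        have hi' := mem_range.mp hi
        have hW := W_nonneg hi'
        rw [← mul_add]
        exact mul_le_mul_of_nonneg_left (ih _ (max_lt hi' (by omega))) hW
      rw [sum_add_distrib, ← sum_mul, W_sum N hN, one_mul] at h2
      have h3 := sum_quartic N hN (A := c ^ 2) (B := 24 * c ^ 2) (by positivity) (by positivity)
      rw [div_lt_iff₀ (by positivity)] at hg
      have h4 : (4 * c ^ 2 * H N ^ 3 + 3 * (24 * c ^ 2) * H N ^ 2) * (sg N / H N)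
          = 4 * c ^ 2 * sg N * H N ^ 2 + 72 * c ^ 2 * sg N * H N := by
        field_simp
        ring
      have h5 : (6 * c ^ 2 * H N ^ 2 + 3 * (24 * c ^ 2) * H N) * (3 / H N)
          = 18 * c ^ 2 * H N + 216 * c ^ 2 := by
        field_simp
        ring
      rw [h4, h5] at h3
      have h6 : 2 * c * H N ^ 2 ≤ 4 * c ^ 2 * sg N * H N ^ 2 := by
        have : 2 * c ≤ 4 * c ^ 2 * sg N := by
          rw [div_lt_iff₀ (by positivity)] at hσ
          nlinarith
        gcongr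
      have h7 : 18 * c ^ 2 * H N + 216 * c ^ 2 ≤ 72 * c ^ 2 * sg N * H N := by
        have h8 := sg_ge hN
        have h9 : 72 * c ^ 2 * (1 / 2) * H N ≤ 72 * c ^ 2 * sg N * H N := by gcongr
        have h10 : c ^ 2 * 12 ≤ c ^ 2 * H N := by gcongr
        linarith
      linarith

end Pool.Agent.J4.H90.CBS
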