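import Mathlib
import Pool.Agent.J4.H90.CBS.Second

/-!
Upper bound for the expected height, and the comparison with the greedy path.
-/

namespace Pool.Agent.J4.H90.CBS

open BinaryTree Finset Filter Topology Pool.Agent.R982.CBS

lemma E_zero (f : BinaryTree Unit → ℝ) : E 0 f = f .nil := by
  simp [E, treeProb]

lemma sum_W_sq (N : ℕ) (hN : 1 ≤ N) :
    ∑ i ∈ range N, W N i * (((i : ℝ) + 1) ^ 2 + ((N : ℝ) - i) ^ 2)
      = ((N : ℝ) + 1) ^ 2 - (N : ℝ) * ((N : ℝ) + 1) / H N := by
  have hH := H_pos hN
  have h1 : ∑ i ∈ range N, W N i * (((i : ℝ) + 1) ^ 2 + ((N : ℝ) - i) ^ 2)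
      = ((N : ℝ) + 1) ^ 2 * ∑ i ∈ range N, W N i - ∑ i ∈ range N, ((N : ℝ) + 1) / H N := by
    rw [mul_sum, ← sum_sub_distrib]
    refine sum_congr rfl fun i hi => ?_
    have hi' := mem_range.mp hi
    have h5 : (0 : ℝ) < (N : ℝ) - i := by
      have : (i : ℝ) < N := by exact_mod_cast hi'
      linarith
    unfold W
    field_simp
    ring
  rw [h1, W_sum N hN, sum_const, card_range, nsmul_eq_mul]
  ring

lemma exp_moment (M : ℕ) (hM : 1 ≤ M) : ∀ N ≤ M,
    E N (fun t => ((1 - 1 / (2 * H M))⁻¹) ^ treeHeight t) ≤ ((N : ℝ) + 1) ^ 2 := by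
  have hHM := H_one_le hM
  set lam := (1 - 1 / (2 * H M))⁻¹ with hlam
  have hx : 1 / (2 * H M) ≤ 1 / 2 := by
    rw [div_le_div_iff₀ (by positivity) (by norm_num)]
    linarith
  have hx0 : 0 < 1 / (2 * H M) := by positivity
  have hpos : 0 < 1 - 1 / (2 * H M) := by linarith
  have hlam1 : 1 ≤ lam := by
    rw [hlam]
    exact (one_le_inv₀ hpos).mpr (by linarith)
  have hlam0 : 0 < lam := by linarith
  intro N
  induction N using Nat.strong_induction_on with
  | _ N ih =>
    intro hNM
    rcases Nat.eq_zero_or_pos N with h0 | hN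
    · subst h0
      rw [E_zero, treeHeight_nil]
      norm_num
    · have hH := H_pos hN
      rw [E_succ N hN]
      have h1 : ∑ i ∈ range N, W N i * ∑ l ∈ treesOfNumNodesEq i,
          ∑ r ∈ treesOfNumNodesEq (N - 1 - i),
          treeProb l * treeProb r * lam ^ treeHeight (.node () l r)
          ≤ ∑ i ∈ range N, lam * (W N i * (((i : ℝ) + 1) ^ 2 + ((N : ℝ) - i) ^ 2)) := by
        refine sum_le_sum fun i hi => ?_
        have hi' := mem_range.mp hi
        have hW := W_nonneg hi'
        have h2 : ∑ l ∈ treesOfNumNodesEq i,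
          ∑ r ∈ treesOfNumNodesEq (N - 1 - i),
          treeProb l * treeProb r * lam ^ treeHeight (.node () l r)
          ≤ lam * (E i (fun t => lam ^ treeHeight t)
            + E (N - 1 - i) (fun t => lam ^ treeHeight t)) := by
          have e1 : E i (fun t => lam ^ treeHeight t)
              = ∑ l ∈ treesOfNumNodesEq i, ∑ r ∈ treesOfNumNodesEq (N - 1 - i),
                  treeProb l * treeProb r * lam ^ treeHeight l := by
            rw [sum_left (j := N - 1 - i) (F := fun l => lam ^ treeHeight l)]; rfl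
          have e2 : E (N - 1 - i) (fun t => lam ^ treeHeight t)
              = ∑ l ∈ treesOfNumNodesEq i, ∑ r ∈ treesOfNumNodesEq (N - 1 - i),
                  treeProb l * treeProb r * lam ^ treeHeight r := by
            rw [sum_right (i := i) (F := fun r => lam ^ treeHeight r)]; rfl
          rw [e1, e2, ← sum_add_distrib, mul_sum]
          refine sum_le_sum fun l _ => ?_
          rw [← sum_add_distrib, mul_sum]
          refine sum_le_sum fun r _ => ?_
          have hl := treeProb_nonneg l
          have hr := treeProb_nonneg r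
          have h3 : lam ^ treeHeight (.node () l r)
              ≤ lam * (lam ^ treeHeight l + lam ^ treeHeight r) := by
            rw [treeHeight_node, pow_add, pow_one]
            refine mul_le_mul_of_nonneg_left ?_ hlam0.le
            have a1 : 0 < lam ^ treeHeight l := pow_pos hlam0 _
            have a2 : 0 < lam ^ treeHeight r := pow_pos hlam0 _
            rcases le_total (treeHeight l) (treeHeight r) with h | h
            · rw [max_eq_right h]; linarith
            · rw [max_eq_left h]; linarith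
          have h4 := mul_le_mul_of_nonneg_left h3 (mul_nonneg hl hr)
          refine h4.trans (le_of_eq ?_)
          ring
        have h3 := ih i hi' (by omega)
        have h4 := ih (N - 1 - i) (by omega) (by omega)
        have e : ((N - 1 - i : ℕ) : ℝ) + 1 = (N : ℝ) - i := by
          rw [Nat.cast_sub (by omega), Nat.cast_sub (by omega)]; push_cast; ring
        rw [e] at h4
        have h5 : lam * (E i (fun t => lam ^ treeHeight t)
            + E (N - 1 - i) (fun t => lam ^ treeHeight t))
            ≤ lam * (((i : ℝ) + 1) ^ 2 + ((N : ℝ) - i) ^ 2) :=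
          mul_le_mul_of_nonneg_left (add_le_add h3 h4) hlam0.le
        have h6 := mul_le_mul_of_nonneg_left (h2.trans h5) hW
        refine h6.trans (le_of_eq ?_)
        ring
      refine h1.trans ?_
      rw [← mul_sum, sum_W_sq N hN, hlam, inv_mul_le_iff₀ hpos]
      have h2 : ((N : ℝ) + 1) ^ 2 / (2 * H M) ≤ (N : ℝ) * ((N : ℝ) + 1) / H N := by
        have hHle : H N ≤ H M := H_mono hNM
        have hN1 : (1 : ℝ) ≤ N := by exact_mod_cast hN
        rw [div_le_div_iff₀ (by positivity) hH]
        have h3 : ((N : ℝ) + 1) ^ 2 * H N ≤ ((N : ℝ) + 1) ^ 2 * H M := by gcongr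
        have h4 : ((N : ℝ) + 1) ^ 2 * H M ≤ (N : ℝ) * ((N : ℝ) + 1) * (2 * H M) := by
          have : ((N : ℝ) + 1) ^ 2 ≤ (N : ℝ) * ((N : ℝ) + 1) * 2 := by nlinarith
          nlinarith
        linarith
      have h3 : (1 - 1 / (2 * H M)) * ((N : ℝ) + 1) ^ 2
          = ((N : ℝ) + 1) ^ 2 - ((N : ℝ) + 1) ^ 2 / (2 * H M) := by ring
      rw [h3]
      linarith

/-- Expected height from a clade of size `N + 1`. -/
noncomputable def Ht (N : ℕ) : ℝ := E N (fun t => (treeHeight t : ℝ))

theorem Ht_upper (N : ℕ) (hN : 1 ≤ N) : Ht N ≤ 4 * H N * Real.log ((N : ℝ) + 1) := by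
  have hH := H_one_le hN
  have hm := exp_moment N hN N le_rfl
  set lam := (1 - 1 / (2 * H N))⁻¹ with hlam
  have hx : 1 / (2 * H N) ≤ 1 / 2 := by
    rw [div_le_div_iff₀ (by positivity) (by norm_num)]
    linarith
  have hx0 : 0 < 1 / (2 * H N) := by positivity
  have hpos : 0 < 1 - 1 / (2 * H N) := by linarith
  have hlam0 : 0 < lam := inv_pos.mpr hpos
  have hloglam : 1 / (2 * H N) ≤ Real.log lam := by
    rw [hlam, Real.log_inv]
    have := Real.log_le_sub_one_of_pos hpos
    linarith
  have hA : (0 : ℝ) < ((N : ℝ) + 1) ^ 2 := by positivity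
  have h1 : Real.log lam * Ht N ≤ Real.log (((N : ℝ) + 1) ^ 2)
      + (((N : ℝ) + 1) ^ 2)⁻¹ * E N (fun t => lam ^ treeHeight t) - 1 := by
    unfold Ht
    rw [← E_smul, ← E_smul, ← E_const N (Real.log (((N : ℝ) + 1) ^ 2)), ← E_add,
      ← E_const N 1, ← E_sub]
    apply E_mono
    intro t
    rw [E_const]
    have h2 := Real.log_le_sub_one_of_pos (x := (((N : ℝ) + 1) ^ 2)⁻¹ * lam ^ treeHeight t)
      (by positivity)
    rw [Real.log_mul (by positivity) (by positivity), Real.log_inv,
      Real.log_pow lam (treeHeight t)] at h2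
    linarith
  have h2 : (((N : ℝ) + 1) ^ 2)⁻¹ * E N (fun t => lam ^ treeHeight t) ≤ 1 := by
    rw [inv_mul_le_iff₀ hA, mul_one]
    exact hm
  rw [Real.log_pow] at h1
  push_cast at h1
  have h0 : 0 ≤ Ht N := by
    have h := E_mono N (f := fun _ => (0 : ℝ)) (g := fun t => (treeHeight t : ℝ))
      (fun t => by positivity)
    rw [E_const] at h
    exact h
  have h3 : 1 / (2 * H N) * Ht N ≤ 2 * Real.log ((N : ℝ) + 1) := by
    have := mul_le_mul_of_nonneg_right hloglam h0
    linarith
  rw [div_mul_eq_mul_div, one_mul, div_le_iff₀ (by positivity)] at h3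
  linarith

/-- Comparison of the expectations of the height and of the greedy path length. -/
theorem diff_ge (N : ℕ) {a lam : ℝ} (hlam : 0 < lam) :
    E N (fun t => if a ≤ treeHeight t then 1 else 0) * (a - G N)
      - lam / 2 - (Q N - G N ^ 2) / (2 * lam) ≤ Ht N - G N := by
  have h1 : E N (fun t => ((a - G N) * (if a ≤ treeHeight t then 1 else 0) + -(lam / 2))
      + (-(1 / (2 * lam))) * (((greedyLength t : ℝ) ^ 2 + (-(2 * G N)) * (greedyLength t : ℝ))
        + G N ^ 2))
      ≤ E N (fun t => (treeHeight t : ℝ) - (greedyLength t : ℝ)) := by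
    apply E_mono
    intro t
    have hgh : (greedyLength t : ℝ) ≤ treeHeight t := by exact_mod_cast greedy_le_height t
    obtain ⟨x, hx⟩ : ∃ x : ℝ, x = (greedyLength t : ℝ) := ⟨_, rfl⟩
    obtain ⟨y, hy⟩ : ∃ y : ℝ, y = (treeHeight t : ℝ) := ⟨_, rfl⟩
    rw [← hx, ← hy] at hgh ⊢
    have h2 : |x - G N| ≤ lam / 2 + (1 / (2 * lam)) * (x - G N) ^ 2 := by
      have h3 : 0 ≤ (1 / (2 * lam)) * (|x - G N| - lam) ^ 2 := by positivity
      have h4 : (1 / (2 * lam)) * (|x - G N| - lam) ^ 2
          = lam / 2 + (1 / (2 * lam)) * (x - G N) ^ 2 - |x - G N| := by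
        rw [← sq_abs (x - G N)]
        field_simp
        ring
      linarith
    have h3 : x - G N ≤ |x - G N| := le_abs_self _
    have h3' : 0 ≤ |x - G N| := abs_nonneg _
    have h5 : (1 / (2 * lam)) * (x - G N) ^ 2 = (1 / (2 * lam)) * ((x ^ 2 + (-(2 * G N)) * x)
        + G N ^ 2) := by ring
    rw [h5] at h2
    split_ifs with h
    · linarith
    · linarith
  rw [E_sub, E_add, E_smul, E_add, E_add, E_smul, E_const, E_const, E_add, E_smul] at h1
  change _ ≤ Ht N - G N at h1
  refine le_trans (le_of_eq ?_) h1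
  rw [← Q, ← G_eq]
  ring

end Pool.Agent.J4.H90.CBS
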